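import Mathlib
import Pool.Agent.helper84.SG.Fin8

/-!
# Multiplicative chaos limit of the spherical ensemble (all `0 < γ < 2`)
-/

open MeasureTheory ProbabilityTheory Filter Topology
open scoped BoundedContinuousFunction

namespace Pool.Agent.Results.MP_55470d_pr.SphericalChaosLimit

/-- Pairs `(A, B)` of `n × n` complex matrices. -/
def Pair (n : ℕ) : Type := (Fin n → Fin n → ℂ) × (Fin n → Fin n → ℂ)

/-- The product σ-algebra. -/
noncomputable instance (n : ℕ) : MeasurableSpace (Pair n) :=
  (inferInstance : MeasurableSpace ((Fin n → Fin n → ℂ) × (Fin n → Fin n → ℂ)))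

/-- The standard complex Gaussian law: independent real and imaginary parts of mean `0` and
variance `1/2`. -/
noncomputable def gaussC : Measure ℂ :=
  ((gaussianReal 0 (1 / 2)).prod (gaussianReal 0 (1 / 2))).map
    (fun p : ℝ × ℝ => (p.1 : ℂ) + (p.2 : ℂ) * Complex.I)

/-- The law of an `n × n` matrix with i.i.d. standard complex Gaussian entries. -/
noncomputable def ginibre (n : ℕ) : Measure (Fin n → Fin n → ℂ) :=
  Measure.pi fun _ => Measure.pi fun _ => gaussC

/-- The law of `(A, B)`, where `A` and `B` are independent and have i.i.d. standard complex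
Gaussian entries. -/
noncomputable def pairLaw (n : ℕ) : Measure (Pair n) := (ginibre n).prod (ginibre n)

/-- The unit sphere of `ℝ³`. -/
def Sph : Type := Metric.sphere (0 : EuclideanSpace ℝ (Fin 3)) 1

/-- The usual topology of the sphere. -/
noncomputable instance : TopologicalSpace Sph :=
  (inferInstance : TopologicalSpace (Metric.sphere (0 : EuclideanSpace ℝ (Fin 3)) 1))

/-- The usual (Borel) σ-algebra of the sphere. -/
noncomputable instance : MeasurableSpace Sph :=
  (inferInstance : MeasurableSpace (Metric.sphere (0 : EuclideanSpace ℝ (Fin 3)) 1))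

instance : BorelSpace Sph :=
  (inferInstance : BorelSpace (Metric.sphere (0 : EuclideanSpace ℝ (Fin 3)) 1))

instance : Nonempty Sph := (inferInstance : Nonempty Pool.Agent.helper84.SG.S2)

/-- The surface measure of the sphere. -/
noncomputable def surf : Measure Sph := (volume : Measure (EuclideanSpace ℝ (Fin 3))).toSphere

/-- The uniform probability measure `ν` on the sphere: the normalised surface measure. -/
noncomputable def unif : Measure Sph := (surf Set.univ)⁻¹ • surf

/-- The stereographic projection from `e₃ = (0, 0, 1)`. -/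
noncomputable def T (x : Sph) : OnePoint ℂ :=
  if x.1 2 = 1 then OnePoint.infty
  else OnePoint.some (((x.1 0 : ℂ) + (x.1 1 : ℂ) * Complex.I) / (1 - (x.1 2 : ℂ)))

/-- The Green function `G(x, y) = log (‖x - y‖ / 2)` of the sphere. -/
noncomputable def green (x y : Sph) : ℝ := Real.log (‖x.1 - y.1‖ / 2)

/-- `L_n(g_x) = ∑_k G(x, T⁻¹(Z_k))`, the sum over the eigenvalues `Z_k` of `A B⁻¹` with
multiplicity (roots of the characteristic polynomial), for `(A, B) = M`. -/
noncomputable def linStat {n : ℕ} (M : Pair n) (x : Sph) : ℝ :=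
  ((Matrix.of M.1 * (Matrix.of M.2)⁻¹).charpoly.roots.map fun z : ℂ =>
    green x (Function.invFun T (OnePoint.some z))).sum

/-- The random measure `M_{n,γ}(dx) = exp(γ L_n(g_x)) / E exp(γ L_n(g_x)) ν(dx)`. -/
noncomputable def chaosMeasure (γ : ℝ) (n : ℕ) (M : Pair n) : Measure Sph :=
  unif.withDensity fun x =>
    ENNReal.ofReal (Real.exp (γ * linStat M x) / ∫ M', Real.exp (γ * linStat M' x) ∂(pairLaw n))

/-- The space of finite Borel measures on the sphere. -/
def FinMeas : Type := FiniteMeasure Sph

/-- The topology of weak convergence: Mathlib's topology on `FiniteMeasure`. -/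
noncomputable instance : TopologicalSpace FinMeas :=
  (inferInstance : TopologicalSpace (FiniteMeasure Sph))

/-- The Borel σ-algebra of the topology of weak convergence. -/
noncomputable instance : MeasurableSpace FinMeas := borel FinMeas

/-- The underlying measure. -/
noncomputable def FinMeas.meas (μ : FinMeas) : Measure Sph := FiniteMeasure.toMeasure μ

/-- Convergence in distribution of the random finite measures `X n`, defined on the probability
space of the pairs `(A, B)`, to the random finite measure `G`, defined on `(Ω, P)`: the maps are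
Borel measurable (up to null sets for `X n`) and `E Φ(X n)` tends to `E Φ(G)` for every bounded
continuous function `Φ` on the space of finite measures. -/
def ConvInDistribution (X : ∀ n : ℕ, Pair n → FinMeas) {Ω : Type} [MeasurableSpace Ω]
    (P : Measure Ω) (G : Ω → FinMeas) : Prop :=
  (∀ n, AEMeasurable (X n) (pairLaw n)) ∧ Measurable G ∧ ∀ Φ : FinMeas →ᵇ ℝ,
    Tendsto (fun n => ∫ M, Φ (X n M) ∂(pairLaw n)) atTop (𝓝 (∫ ω, Φ (G ω) ∂P))

/-- The random measure `G` has mean `ν`: `E ∫ f dG = ∫ f dν` for all continuous `f`. -/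
def HasMeanUnif {Ω : Type} [MeasurableSpace Ω] (P : Measure Ω) (G : Ω → FinMeas) : Prop :=
  ∀ f : C(Sph, ℝ), Integrable (fun ω => ∫ x, f x ∂(G ω).meas) P ∧
    ∫ ω, ∫ x, f x ∂(G ω).meas ∂P = ∫ x, f x ∂unif

/-- `T` is a bijection, so that `Function.invFun T` is its inverse. -/
theorem T_bijective : Function.Bijective T := Pool.Agent.helper84.SG.bijective_ster

/-- For every `γ ∈ (0, 2)` the random measures `M_{n,γ}` are finite and converge in distribution,
for the topology of weak convergence of finite measures, to a random finite measure with mean `ν`.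
Here `X n` is `M_{n,γ}` as an element of the space of finite measures on the sphere. -/
theorem result (γ : ℝ) (hγ : 0 < γ) (hγ2 : γ < 2) :
    ∃ X : ∀ n : ℕ, Pair n → FinMeas, (∀ n M, (X n M).meas = chaosMeasure γ n M) ∧
      ∃ (Ω : Type) (_ : MeasurableSpace Ω) (P : Measure Ω) (_ : IsProbabilityMeasure P)
        (GMC : Ω → FinMeas), ConvInDistribution X P GMC ∧ HasMeanUnif P GMC := by
  obtain ⟨h, h0, h1, rfl⟩ : ∃ h : ℝ, 0 < h ∧ h < 1 ∧ γ = 2 * h :=
    ⟨γ / 2, by linarith, by linarith, by ring⟩
  obtain ⟨Q, hQ, hconv⟩ := Pool.Agent.helper84.SG.exists_limit_law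
    (Pool.Agent.helper84.SG.fieldHyp h0 h1) (Pool.Agent.helper84.SG.mHyp h0)
    (Pool.Agent.helper84.SG.borel_Mf h0)
  have hmean := Pool.Agent.helper84.SG.limit_mean (Pool.Agent.helper84.SG.mHyp h0) Q hconv
    (Pool.Agent.helper84.SG.evl_sq h0 h1)
    (fun n f => (Pool.Agent.helper84.SG.evl_mean h0 n f).2)
  refine ⟨fun n => Pool.Agent.helper84.SG.chaosF h0 n, fun n M => ?_,
    Pool.Agent.helper84.SG.FM Pool.Agent.helper84.SG.S2, inferInstance, Q, hQ, fun μ => μ,
    ⟨fun n => ?_, ?_, fun Φ => ?_⟩, fun f => ?_⟩
  · rfl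
  · exact ⟨Pool.Agent.helper84.SG.Mf h0 n, Pool.Agent.helper84.SG.borel_Mf h0 n,
      Pool.Agent.helper84.SG.chaosF_ae h0 n⟩
  · exact measurable_id
  · refine (hconv Φ).congr fun n => ?_
    refine integral_congr_ae ?_
    filter_upwards [Pool.Agent.helper84.SG.chaosF_ae h0 n] with M hM
    rw [hM]
    rfl
  · exact hmean f

end Pool.Agent.Results.MP_55470d_pr.SphericalChaosLimit
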